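import Pool.Agent.H301X.BG.Stmts

/-! Task Inj (helper714). -/

set_option autoImplicit false

open MeasureTheory Topology Filter Set Metric
open scoped ENNReal NNReal ContDiff

namespace Pool.Agent.H301X.BG

theorem taskInj : TaskInj := by
  intro n p v ν a b ha
  obtain ⟨K, t, ht, hK⟩ := ha.exists_lipschitzOnWith
  have hdiff : ∀ᶠ y in 𝓝 p, DifferentiableAt ℝ a y :=
    (ha.eventually (by simp)).mono fun y hy => hy.differentiableAt one_ne_zero
  have htt : ∀ᶠ y in 𝓝 p, t ∈ 𝓝 y := eventually_mem_nhds_iff.2 ht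
  obtain ⟨ε₁, hε₁, hball⟩ := Metric.mem_nhds_iff.1 ((hdiff.and htt).and ht)
  -- the determinant
  have hdet : ∀ᶠ L in 𝓝 (ContinuousLinearMap.id ℝ (Fin n → ℂ)),
      1 / 2 < |(L : (Fin n → ℂ) →L[ℝ] (Fin n → ℂ)).det| := by
    have hc : Continuous fun L : (Fin n → ℂ) →L[ℝ] (Fin n → ℂ) => |L.det| :=
      ContinuousLinearMap.continuous_det.abs
    refine hc.continuousAt.eventually (lt_mem_nhds ?_)
    have : (ContinuousLinearMap.id ℝ (Fin n → ℂ)).det = 1 := by
      simp [ContinuousLinearMap.det]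
    change 1 / 2 < |(ContinuousLinearMap.id ℝ (Fin n → ℂ)).det|
    rw [this]
    norm_num
  obtain ⟨δ, hδ, hδdet⟩ := Metric.mem_nhds_iff.1 hdet
  set Bd : ℝ := K * ‖ν‖ + 1 with hBd
  have hBpos : 0 < Bd := by positivity
  let ε : ℝ := min ε₁ (min 1 δ / Bd)
  have hε : 0 < ε := lt_min hε₁ (div_pos (lt_min one_pos hδ) hBpos)
  have hsmall : ∀ ζ ∈ ball (0 : ℂ) ε, ‖ζ‖ * (K * ‖ν‖) < min 1 δ := by
    intro ζ hζ
    rw [mem_ball_zero_iff] at hζ
    have h1 : ‖ζ‖ < min 1 δ / Bd := lt_of_lt_of_le hζ (min_le_right _ _)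
    rw [lt_div_iff₀ hBpos] at h1
    have h2 : ‖ζ‖ * (K * ‖ν‖) ≤ ‖ζ‖ * Bd := by
      refine mul_le_mul_of_nonneg_left ?_ (norm_nonneg _)
      rw [hBd]; linarith
    exact lt_of_le_of_lt h2 h1
  have hsub : ball p ε ⊆ ball p ε₁ := ball_subset_ball (min_le_left _ _)
  have hD : ∀ q ∈ ball p ε, DifferentiableAt ℝ a q := fun q hq => (hball (hsub hq)).1.1
  have hN : ∀ q ∈ ball p ε, t ∈ 𝓝 q := fun q hq => (hball (hsub hq)).1.2
  have hT : ∀ q ∈ ball p ε, q ∈ t := fun q hq => (hball (hsub hq)).2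
  refine ⟨ε, hε, ?_, fun ζ q => ContinuousLinearMap.id ℝ (Fin n → ℂ) +
    ζ • ((fderiv ℝ a q).smulRight ν), ?_⟩
  · have hac : ContinuousOn (fun x : ℂ × (Fin n → ℂ) => a x.2) (ball 0 ε ×ˢ ball p ε) := by
      have h1 : ContinuousOn a (ball p ε) := fun q hq => (hD q hq).continuousAt.continuousWithinAt
      exact h1.comp continuousOn_snd fun x hx => hx.2
    have h5 : ContinuousOn (fun x : ℂ × (Fin n → ℂ) => b * x.1 ^ 2) (ball 0 ε ×ˢ ball p ε) :=
      (by fun_prop : Continuous fun x : ℂ × (Fin n → ℂ) => b * x.1 ^ 2).continuousOn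
    have h6 : ContinuousOn (fun x : ℂ × (Fin n → ℂ) => (b * x.1 ^ 2) • ν)
        (ball 0 ε ×ˢ ball p ε) := h5.smul continuousOn_const
    have h7 : ContinuousOn (fun x : ℂ × (Fin n → ℂ) => a x.2 • ν)
        (ball 0 ε ×ˢ ball p ε) := hac.smul continuousOn_const
    have h8 : ContinuousOn (fun x : ℂ × (Fin n → ℂ) => v + a x.2 • ν)
        (ball 0 ε ×ˢ ball p ε) := continuousOn_const.add h7
    have h9 : ContinuousOn (fun x : ℂ × (Fin n → ℂ) => x.1 • (v + a x.2 • ν))
        (ball 0 ε ×ˢ ball p ε) := continuousOn_fst.smul h8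
    exact (continuousOn_snd.add h9).add h6
  · intro ζ hζ
    have hζs := hsmall ζ hζ
    refine ⟨?_, ?_⟩
    · intro q hq q' hq' hqq
      have h1 : q - q' = -(ζ • ((a q - a q') • ν)) := by
        have h2 : q + ζ • (v + a q • ν) + (b * ζ ^ 2) • ν =
          q' + ζ • (v + a q' • ν) + (b * ζ ^ 2) • ν := hqq
        have h3 : q - q' = ζ • (v + a q' • ν) - ζ • (v + a q • ν) := by
          have h4 : q + ζ • (v + a q • ν) + (b * ζ ^ 2) • ν - (b * ζ ^ 2) • ν - q' -
              ζ • (v + a q • ν) = q' + ζ • (v + a q' • ν) + (b * ζ ^ 2) • ν - (b * ζ ^ 2) • ν - q' -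
              ζ • (v + a q • ν) := by rw [h2]
          have h5 : q + ζ • (v + a q • ν) + (b * ζ ^ 2) • ν - (b * ζ ^ 2) • ν - q' -
            ζ • (v + a q • ν) = q - q' := by abel
          have h6 : q' + ζ • (v + a q' • ν) + (b * ζ ^ 2) • ν - (b * ζ ^ 2) • ν - q' -
            ζ • (v + a q • ν) = ζ • (v + a q' • ν) - ζ • (v + a q • ν) := by abel
          rw [h5, h6] at h4
          exact h4
        rw [h3, ← smul_sub, sub_smul, ← smul_neg]
        congr 1
        abel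
      have h2 : ‖q - q'‖ ≤ ‖ζ‖ * (K * ‖ν‖) * ‖q - q'‖ := by
        calc ‖q - q'‖ = ‖ζ‖ * (‖a q - a q'‖ * ‖ν‖) := by
              conv_lhs => rw [h1]
              rw [norm_neg, norm_smul, norm_smul]
          _ ≤ ‖ζ‖ * ((K * ‖q - q'‖) * ‖ν‖) := by
              have := hK.dist_le_mul q (hT q hq) q' (hT q' hq')
              rw [dist_eq_norm, dist_eq_norm] at this
              gcongr
          _ = ‖ζ‖ * (K * ‖ν‖) * ‖q - q'‖ := by ring
      by_contra hne
      have h3 : 0 < ‖q - q'‖ := norm_pos_iff.2 (sub_ne_zero.2 hne)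
      have h4 : ‖ζ‖ * (K * ‖ν‖) < 1 := lt_of_lt_of_le hζs (min_le_left _ _)
      nlinarith
    · intro q hq
      refine ⟨?_, ?_⟩
      · have h1 : HasFDerivAt a (fderiv ℝ a q) q := (hD q hq).hasFDerivAt
        have h2 := ((h1.smul_const ν).const_add v).const_smul ζ
        have h3 := ((hasFDerivAt_id (𝕜 := ℝ) q).add h2).add_const ((b * ζ ^ 2) • ν)
        exact h3
      · have hle : ‖fderiv ℝ a q‖ ≤ K := norm_fderiv_le_of_lipschitzOn (𝕜 := ℝ) (hN q hq) hK
        have hmem : ContinuousLinearMap.id ℝ (Fin n → ℂ) + ζ • ((fderiv ℝ a q).smulRight ν) ∈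
            ball (ContinuousLinearMap.id ℝ (Fin n → ℂ)) δ := by
          rw [mem_ball, dist_eq_norm, add_sub_cancel_left, norm_smul]
          refine lt_of_le_of_lt ?_ (lt_of_lt_of_le hζs (min_le_right _ _))
          refine mul_le_mul_of_nonneg_left ?_ (norm_nonneg _)
          refine ContinuousLinearMap.opNorm_le_bound _ (by positivity) fun x => ?_
          rw [ContinuousLinearMap.smulRight_apply, norm_smul]
          have h1 : ‖(fderiv ℝ a q) x‖ ≤ K * ‖x‖ :=
            ((fderiv ℝ a q).le_opNorm x).trans (mul_le_mul_of_nonneg_right hle (norm_nonneg _))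
          calc ‖(fderiv ℝ a q) x‖ * ‖ν‖ ≤ (K * ‖x‖) * ‖ν‖ :=
                mul_le_mul_of_nonneg_right h1 (norm_nonneg _)
            _ = K * ‖ν‖ * ‖x‖ := by ring
        exact (hδdet hmem).le

end Pool.Agent.H301X.BG
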